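import Mathlib
import Pool.Agent.Y286.LinfMAP

set_option autoImplicit false

open scoped ENNReal

namespace Pool.Agent.Results.MP_e8a68b_an.LInftyRenormingFailsMAP

/-- The metric approximation property for the norm `N` on the normed space `X`, where `N` is meant
to be equivalent to the given norm (so that both norms have the same compact sets). -/
def HasMAP {𝕜 : Type} [RCLike 𝕜] {X : Type} [NormedAddCommGroup X] [NormedSpace 𝕜 X]
    (N : Seminorm 𝕜 X) : Prop :=
  ∀ K : Set X, IsCompact K → ∀ ε : ℝ, 0 < ε →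
    ∃ T : X →L[𝕜] X, FiniteDimensional 𝕜 (LinearMap.range (T : X →ₗ[𝕜] X)) ∧
      (∀ x, N (T x) ≤ N x) ∧ ∀ x ∈ K, N (T x - x) ≤ ε

/-- Some equivalent norm on `X` fails the metric approximation property. -/
def RenormingFailsMAP (𝕜 X : Type) [RCLike 𝕜] [NormedAddCommGroup X] [NormedSpace 𝕜 X] : Prop :=
  ∃ N : Seminorm 𝕜 X, (∃ a b : ℝ, 0 < a ∧ ∀ x, a * ‖x‖ ≤ N x ∧ N x ≤ b * ‖x‖) ∧ ¬ HasMAP N

/-- There is an equivalent norm on `ℓ^∞` without the metric approximation property, both for real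
and for complex scalars. -/
theorem result :
    RenormingFailsMAP ℝ (lp (fun _ : ℕ => ℝ) ∞) ∧ RenormingFailsMAP ℂ (lp (fun _ : ℕ => ℂ) ∞) :=
  Pool.Agent.Y286.MD.final

end Pool.Agent.Results.MP_e8a68b_an.LInftyRenormingFailsMAP
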